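import Pool.Agent.X141.LampPair

/-!
# MP_b50549_al, Q1: yes

A finitely generated group `G`, a word `w` and two random walk measures `μ`, `ν` on `G` such that
the probability that `G` satisfies `w` is `0` with respect to `μ` and `1` with respect to `ν`.
-/

set_option autoImplicit false

namespace Pool.Agent.Results.MP_b50549_al.DependsOnGenerators

open Filter Topology Pool.Agent.X141.Lamp Pool.Agent.X141.LampWalk Pool.Agent.X141.Recur

/-! ## Definitions of the problem -/

/-- Convolution of finitely supported measures on a group. -/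
noncomputable def conv {G : Type*} [Group G] (μ ν : G →₀ ℝ) : G →₀ ℝ :=
  μ.sum fun a r => ν.sum fun b s => Finsupp.single (a * b) (r * s)

/-- `μ^{*n}`, the law of the walk after `n` steps. -/
noncomputable def convPow {G : Type*} [Group G] (μ : G →₀ ℝ) : ℕ → (G →₀ ℝ)
  | 0 => Finsupp.single 1 1
  | (n + 1) => conv (convPow μ n) μ

/-- `μ` is the step distribution of a random walk measure: a finitely supported probability measure
whose support generates the group and with `μ(1) > 0`. -/
structure IsStepLaw {G : Type*} [Group G] (μ : G →₀ ℝ) : Prop where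
  /-- nonnegative -/
  nonneg : ∀ g, 0 ≤ μ g
  /-- total mass one -/
  mass : ∑ g ∈ μ.support, μ g = 1
  /-- the support generates -/
  gen : Subgroup.closure (μ.support : Set G) = ⊤
  /-- the identity is charged -/
  one_pos : 0 < μ 1

open Classical in
/-- The probability that `d` independent `n`-step walks satisfy `w`. -/
noncomputable def probAt {G : Type*} [Group G] (μ : G →₀ ℝ) {d : ℕ} (w : FreeGroup (Fin d))
    (n : ℕ) : ℝ :=
  ∑ g ∈ Fintype.piFinset (fun _ : Fin d => (convPow μ n).support),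
    if FreeGroup.lift g w = 1 then ∏ i, convPow μ n (g i) else 0

/-- `Pr_μ(w = 1 on G)`. -/
noncomputable def Pr {G : Type*} [Group G] (μ : G →₀ ℝ) {d : ℕ} (w : FreeGroup (Fin d)) : ℝ :=
  limsup (probAt μ w) atTop

/-! ## Expectations -/

section EE

variable {G : Type*}

/-- Expectation of `F` under `m`. -/
noncomputable def EE (m : G →₀ ℝ) (F : G → ℝ) : ℝ := ∑ g ∈ m.support, m g * F g

theorem EE_eq (m : G →₀ ℝ) (F : G → ℝ) : EE m F = m.sum fun g c => c * F g := rfl

theorem EE_single (a : G) (r : ℝ) (F : G → ℝ) : EE (Finsupp.single a r) F = r * F a := by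
  rw [EE_eq, Finsupp.sum_single_index (by simp)]

theorem EE_zero (F : G → ℝ) : EE (0 : G →₀ ℝ) F = 0 := by
  simp [EE]

theorem EE_add (m m' : G →₀ ℝ) (F : G → ℝ) : EE (m + m') F = EE m F + EE m' F := by
  rw [EE_eq, EE_eq, EE_eq]
  classical
  exact Finsupp.sum_add_index' (fun _ => by simp) (fun _ _ _ => by ring)

theorem EE_sum {ι : Type*} (s : Finset ι) (m : ι → (G →₀ ℝ)) (F : G → ℝ) :
    EE (∑ i ∈ s, m i) F = ∑ i ∈ s, EE (m i) F := by
  classical
  induction s using Finset.induction_on with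
  | empty => simp [EE_zero]
  | insert i s hi ih => rw [Finset.sum_insert hi, Finset.sum_insert hi, EE_add, ih]

variable [Group G]

theorem EE_conv (μ ν : G →₀ ℝ) (F : G → ℝ) :
    EE (conv μ ν) F = EE μ (fun x => EE ν (fun y => F (x * y))) := by
  have h1 : conv μ ν = ∑ a ∈ μ.support, ∑ b ∈ ν.support, Finsupp.single (a * b) (μ a * ν b) := rfl
  rw [h1, EE_sum]
  have h2 : EE μ (fun x => EE ν (fun y => F (x * y))) =
      ∑ a ∈ μ.support, μ a * ∑ b ∈ ν.support, ν b * F (a * b) := rfl
  rw [h2]
  refine Finset.sum_congr rfl fun a _ => ?_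
  rw [EE_sum, Finset.mul_sum]
  refine Finset.sum_congr rfl fun b _ => ?_
  rw [EE_single]
  ring

theorem EE_swap (μ ν : G →₀ ℝ) (H : G → G → ℝ) :
    EE μ (fun x => EE ν (fun y => H x y)) = EE ν (fun y => EE μ (fun x => H x y)) := by
  have h1 : ∀ (m m' : G →₀ ℝ) (H : G → G → ℝ), EE m (fun x => EE m' (fun y => H x y)) =
      ∑ a ∈ m.support, ∑ b ∈ m'.support, m a * m' b * H a b := by
    intro m m' H
    unfold EE
    refine Finset.sum_congr rfl fun a _ => ?_
    show m a * ∑ b ∈ m'.support, m' b * H a b = _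
    rw [Finset.mul_sum]
    refine Finset.sum_congr rfl fun b _ => ?_
    ring
  rw [h1, h1, Finset.sum_comm]
  refine Finset.sum_congr rfl fun a _ => Finset.sum_congr rfl fun b _ => ?_
  ring

theorem conv_succ' (μ : G →₀ ℝ) (n : ℕ) (F : G → ℝ) :
    EE (convPow μ (n + 1)) F = EE μ (fun x => EE (convPow μ n) (fun y => F (x * y))) := by
  induction n generalizing F with
  | zero =>
    simp only [convPow]
    rw [EE_conv, EE_single]
    simp only [EE_single, one_mul, mul_one]
  | succ n ih =>
    have h1 : EE (convPow μ (n + 1 + 1)) F =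
        EE (convPow μ (n + 1)) (fun x => EE μ (fun y => F (x * y))) := EE_conv _ _ _
    rw [h1, ih]
    congr 1
    ext x
    have h2 : EE (convPow μ (n + 1)) (fun y => F (x * y)) =
        EE (convPow μ n) (fun y => EE μ (fun z => F (x * (y * z)))) := EE_conv _ _ _
    rw [h2]
    simp only [mul_assoc]

theorem EE_inv_pow (μ : G →₀ ℝ) (h : ∀ F : G → ℝ, EE μ (fun x => F x⁻¹) = EE μ F) (n : ℕ)
    (F : G → ℝ) : EE (convPow μ n) (fun x => F x⁻¹) = EE (convPow μ n) F := by
  induction n generalizing F with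
  | zero => simp [convPow, EE_single]
  | succ n ih =>
    have h1 : EE (convPow μ (n + 1)) (fun x => F x⁻¹) =
        EE (convPow μ n) (fun x => EE μ (fun y => F (x * y)⁻¹)) := EE_conv _ _ _
    rw [h1, conv_succ', EE_swap]
    simp only [mul_inv_rev]
    rw [← h (fun x => EE (convPow μ n) fun y => F (x * y))]
    congr 1
    ext y
    exact ih (fun x => F (y⁻¹ * x))

theorem EE_mono (m : G →₀ ℝ) (hm : ∀ g, 0 ≤ m g) (F F' : G → ℝ) (h : ∀ g ∈ m.support, F g ≤ F' g) :
    EE m F ≤ EE m F' := by
  unfold EE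
  exact Finset.sum_le_sum fun g hg => mul_le_mul_of_nonneg_left (h g hg) (hm g)

theorem EE_const (m : G →₀ ℝ) (hm : EE m (fun _ => 1) = 1) (c : ℝ) : EE m (fun _ => c) = c := by
  have h : EE m (fun _ => c) = EE m (fun _ => 1) * c := by
    unfold EE
    rw [Finset.sum_mul]
    refine Finset.sum_congr rfl fun g _ => ?_
    ring
  rw [h, hm, one_mul]

theorem EE_pow_one (μ : G →₀ ℝ) (h : EE μ (fun _ => 1) = 1) (n : ℕ) :
    EE (convPow μ n) (fun _ => 1) = 1 := by
  induction n with
  | zero => simp [convPow, EE_single]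
  | succ n ih =>
    rw [conv_succ']
    simp only [ih]
    exact h

theorem EE_add_fun (m : G →₀ ℝ) (F F' : G → ℝ) :
    EE m (fun x => F x + F' x) = EE m F + EE m F' := by
  unfold EE
  rw [← Finset.sum_add_distrib]
  refine Finset.sum_congr rfl fun g _ => ?_
  ring

theorem EE_sum_fun {ι : Type*} (m : G →₀ ℝ) (s : Finset ι) (F : ι → G → ℝ) :
    EE m (fun x => ∑ i ∈ s, F i x) = ∑ i ∈ s, EE m (F i) := by
  unfold EE
  rw [Finset.sum_comm]
  refine Finset.sum_congr rfl fun g _ => ?_
  rw [Finset.mul_sum]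

/-- The probability at time `n` for a word in four letters as an iterated expectation. -/
theorem probAt_four (μ : G →₀ ℝ) (w : FreeGroup (Fin 4)) (n : ℕ) [DecidableEq G] :
    probAt μ w n = EE (convPow μ n) (fun y => EE (convPow μ n) (fun t =>
      EE (convPow μ n) (fun x => EE (convPow μ n) (fun z =>
        if FreeGroup.lift ![x, y, z, t] w = 1 then 1 else 0)))) := by
  classical
  set m := convPow μ n with hm
  set s := m.support with hs
  have h1 : probAt μ w n = ∑ p ∈ s ×ˢ (s ×ˢ (s ×ˢ s)),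
      (if FreeGroup.lift ![p.2.2.1, p.1, p.2.2.2, p.2.1] w = 1 then
        m p.1 * (m p.2.1 * (m p.2.2.1 * m p.2.2.2)) else 0) := by
    unfold probAt
    refine Finset.sum_bij' (fun g _ => (g 1, g 3, g 0, g 2))
      (fun p _ => ![p.2.2.1, p.1, p.2.2.2, p.2.1]) ?_ ?_ ?_ ?_ ?_
    · intro g hg
      rw [Fintype.mem_piFinset] at hg
      simp only [Finset.mem_product]
      exact ⟨hg 1, hg 3, hg 0, hg 2⟩
    · rintro ⟨y, t, x, z⟩ hp
      simp only [Finset.mem_product] at hp
      rw [Fintype.mem_piFinset]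
      intro i
      fin_cases i
      · exact hp.2.2.1
      · exact hp.1
      · exact hp.2.2.2
      · exact hp.2.1
    · intro g _
      ext i
      fin_cases i <;> rfl
    · rintro ⟨y, t, x, z⟩ _
      rfl
    · intro g _
      have e : ![g 0, g 1, g 2, g 3] = g := by
        ext i
        fin_cases i <;> rfl
      simp only [e, Fin.prod_univ_four]
      split_ifs
      · ring
      · rfl
  rw [h1, Finset.sum_product]
  unfold EE
  refine Finset.sum_congr rfl fun y _ => ?_
  rw [Finset.sum_product, Finset.mul_sum]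
  refine Finset.sum_congr rfl fun t _ => ?_
  rw [Finset.sum_product, Finset.mul_sum, Finset.mul_sum]
  refine Finset.sum_congr rfl fun x _ => ?_
  rw [Finset.mul_sum, Finset.mul_sum, Finset.mul_sum]
  refine Finset.sum_congr rfl fun z _ => ?_
  simp only [mul_ite, mul_one, mul_zero]

end EE

/-! ## The group and the two step laws -/

/-- lamp group -/
abbrev KK : Type := Equiv.Perm (Fin 3)

/-- The group generated by `toggle by k, then move right`, `k ∈ Sym(3)`. -/
abbrev GG : Subgroup (W KK) := Subgroup.closure (Set.range (step (K := KK)))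

theorem step_mem (k : KK) : step k ∈ GG := Subgroup.subset_closure ⟨k, rfl⟩

/-- translation by `e` -/
def sh (e : ℤ) : W KK := ⟨fun _ => 1, e⟩

theorem sh_one : sh 1 = (step (1 : KK)) := by
  rw [step_one]
  rfl

theorem sh_inv (e : ℤ) : (sh e)⁻¹ = sh (-e) := by
  apply W.ext
  · funext i
    simp [inv_lamp, sh]
  · rfl

theorem sh_zero : sh 0 = 1 := rfl

theorem sh_mem_one : sh 1 ∈ GG := by
  rw [sh_one]
  exact step_mem 1

theorem sh_mem_neg : sh (-1) ∈ GG := by
  rw [← sh_inv]
  exact GG.inv_mem sh_mem_one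

theorem sh_mem_zero : sh 0 ∈ GG := GG.one_mem

theorem lamp_mem (k : KK) : lampAt k ∈ GG := by
  rw [lampAt_eq]
  exact GG.mul_mem (step_mem k) (GG.inv_mem (step_mem 1))

theorem lampAt_inv (k : KK) : (lampAt k)⁻¹ = lampAt k⁻¹ := by
  apply W.ext
  · funext i
    rw [inv_lamp]
    by_cases h : i = 0
    · subst h
      simp [lampAt]
    · simp [lampAt, h]
  · simp [inv_pos', lampAt]

/-- switch, walk by `e`, switch -/
def st (e : ℤ) (he : sh e ∈ GG) (k k' : KK) : GG :=
  ⟨lampAt k * sh e * lampAt k', GG.mul_mem (GG.mul_mem (lamp_mem k) he) (lamp_mem k')⟩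

/-- The switch-walk-switch step law. -/
noncomputable def mu : GG →₀ ℝ :=
  ∑ k : KK, ∑ k' : KK, (Finsupp.single (st 0 sh_mem_zero k k') (1 / 72) +
    Finsupp.single (st 1 sh_mem_one k k') (1 / 144) +
    Finsupp.single (st (-1) sh_mem_neg k k') (1 / 144))

/-- The one-sided step law. -/
noncomputable def nu : GG →₀ ℝ :=
  Finsupp.single 1 (1 / 7) + ∑ k : KK, Finsupp.single (⟨step k, step_mem k⟩ : GG) (1 / 7)

theorem card_KK : Fintype.card KK = 6 := by decide

theorem EE_mu (F : GG → ℝ) : EE mu F = ∑ k : KK, ∑ k' : KK,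
    (1 / 72 * F (st 0 sh_mem_zero k k') + 1 / 144 * F (st 1 sh_mem_one k k') +
      1 / 144 * F (st (-1) sh_mem_neg k k')) := by
  unfold mu
  rw [EE_sum]
  refine Finset.sum_congr rfl fun k _ => ?_
  rw [EE_sum]
  refine Finset.sum_congr rfl fun k' _ => ?_
  rw [EE_add, EE_add, EE_single, EE_single, EE_single]

theorem EE_nu (F : GG → ℝ) :
    EE nu F = 1 / 7 * F 1 + ∑ k : KK, 1 / 7 * F ⟨step k, step_mem k⟩ := by
  unfold nu
  rw [EE_add, EE_single, EE_sum]
  simp only [EE_single]

theorem mu_mass : EE mu (fun _ => 1) = 1 := by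
  rw [EE_mu]
  simp only [mul_one, Finset.sum_const, Finset.card_univ, card_KK, nsmul_eq_mul]
  norm_num

theorem nu_mass : EE nu (fun _ => 1) = 1 := by
  rw [EE_nu]
  simp only [mul_one, Finset.sum_const, Finset.card_univ, card_KK, nsmul_eq_mul]
  norm_num

theorem mass_of_EE {G : Type*} [Group G] (m : G →₀ ℝ) (h : EE m (fun _ => 1) = 1) :
    ∑ g ∈ m.support, m g = 1 := by
  rw [← h]
  unfold EE
  simp

/-- `μ` is symmetric. -/
theorem mu_symm (F : GG → ℝ) : EE mu (fun x => F x⁻¹) = EE mu F := by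
  rw [EE_mu, EE_mu]
  have hinv : ∀ (e : ℤ) (he : sh e ∈ GG) (he' : sh (-e) ∈ GG) (k k' : KK),
      (st e he k k')⁻¹ = st (-e) he' k'⁻¹ k⁻¹ := by
    intro e he he' k k'
    apply Subtype.ext
    show (lampAt k * sh e * lampAt k')⁻¹ = lampAt k'⁻¹ * sh (-e) * lampAt k⁻¹
    rw [mul_inv_rev, mul_inv_rev, lampAt_inv, lampAt_inv, sh_inv, mul_assoc]
  have h0 : ∀ k k' : KK, (st 0 sh_mem_zero k k')⁻¹ = st 0 sh_mem_zero k'⁻¹ k⁻¹ := fun k k' =>
    hinv 0 sh_mem_zero sh_mem_zero k k'
  have h1 : ∀ k k' : KK, (st 1 sh_mem_one k k')⁻¹ = st (-1) sh_mem_neg k'⁻¹ k⁻¹ := fun k k' =>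
    hinv 1 sh_mem_one sh_mem_neg k k'
  have h2 : ∀ k k' : KK, (st (-1) sh_mem_neg k k')⁻¹ = st 1 sh_mem_one k'⁻¹ k⁻¹ := fun k k' =>
    hinv (-1) sh_mem_neg sh_mem_one k k'
  simp_rw [h0, h1, h2]
  rw [Finset.sum_comm]
  rw [← Equiv.sum_comp (Equiv.inv KK)]
  refine Finset.sum_congr rfl fun k _ => ?_
  rw [← Equiv.sum_comp (Equiv.inv KK)]
  refine Finset.sum_congr rfl fun k' _ => ?_
  simp only [Equiv.inv_apply, inv_inv]
  ring

theorem single_nonneg {G : Type*} (a g : G) (r : ℝ) (hr : 0 ≤ r) :
    0 ≤ (Finsupp.single a r : G →₀ ℝ) g := by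
  classical
  rw [Finsupp.single_apply]
  split_ifs
  · exact hr
  · exact le_rfl

theorem mu_nonneg (g : GG) : 0 ≤ mu g := by
  unfold mu
  rw [Finsupp.finsetSum_apply]
  refine Finset.sum_nonneg fun k _ => ?_
  rw [Finsupp.finsetSum_apply]
  refine Finset.sum_nonneg fun k' _ => ?_
  rw [Finsupp.add_apply, Finsupp.add_apply]
  exact add_nonneg (add_nonneg (single_nonneg _ _ _ (by norm_num))
    (single_nonneg _ _ _ (by norm_num))) (single_nonneg _ _ _ (by norm_num))

theorem mu_ge (k k' : KK) (g : GG) :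
    (Finsupp.single (st 0 sh_mem_zero k k') (1 / 72) +
    Finsupp.single (st 1 sh_mem_one k k') (1 / 144) +
    Finsupp.single (st (-1) sh_mem_neg k k') (1 / 144) : GG →₀ ℝ) g ≤ mu g := by
  have hnn : ∀ (k k' : KK), 0 ≤ (Finsupp.single (st 0 sh_mem_zero k k') (1 / 72) +
    Finsupp.single (st 1 sh_mem_one k k') (1 / 144) +
    Finsupp.single (st (-1) sh_mem_neg k k') (1 / 144) : GG →₀ ℝ) g := by
    intro k k'
    rw [Finsupp.add_apply, Finsupp.add_apply]
    exact add_nonneg (add_nonneg (single_nonneg _ _ _ (by norm_num))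
      (single_nonneg _ _ _ (by norm_num))) (single_nonneg _ _ _ (by norm_num))
  unfold mu
  rw [Finsupp.finsetSum_apply]
  refine le_trans ?_ (Finset.single_le_sum (f := fun k => (∑ k' : KK,
    (Finsupp.single (st 0 sh_mem_zero k k') (1 / 72) +
    Finsupp.single (st 1 sh_mem_one k k') (1 / 144) +
    Finsupp.single (st (-1) sh_mem_neg k k') (1 / 144) : GG →₀ ℝ)) g) ?_ (Finset.mem_univ k))
  · rw [Finsupp.finsetSum_apply]
    exact Finset.single_le_sum (f := fun k' => (Finsupp.single (st 0 sh_mem_zero k k') (1 / 72) +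
      Finsupp.single (st 1 sh_mem_one k k') (1 / 144) +
      Finsupp.single (st (-1) sh_mem_neg k k') (1 / 144) : GG →₀ ℝ) g) (fun k' _ => hnn k k')
      (Finset.mem_univ k')
  · intro k _
    rw [Finsupp.finsetSum_apply]
    exact Finset.sum_nonneg fun k' _ => hnn k k'

theorem lampAt_one : (lampAt (1 : KK)) = 1 := by
  apply W.ext
  · funext i
    simp [lampAt, one_lamp]
  · rfl

theorem step_eq (k : KK) : step k = lampAt k * sh 1 * lampAt 1 := by
  rw [lampAt_one, mul_one]
  apply W.ext
  · funext i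
    simp [step, lampAt, sh, mul_lamp]
  · simp [step, lampAt, sh, mul_pos']

theorem mu_isStepLaw : IsStepLaw mu where
  nonneg := mu_nonneg
  mass := mass_of_EE _ mu_mass
  gen := by
    have hsub : (Set.range fun k : KK => (⟨step k, step_mem k⟩ : GG)) ⊆ (mu.support : Set GG) := by
      rintro _ ⟨k, rfl⟩
      rw [Finset.mem_coe, Finsupp.mem_support_iff]
      have h1 := mu_ge k 1 ⟨step k, step_mem k⟩
      have h2 : (⟨step k, step_mem k⟩ : GG) = st 1 sh_mem_one k 1 := Subtype.ext (step_eq k)
      rw [Finsupp.add_apply, Finsupp.add_apply] at h1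
      have h3 : (Finsupp.single (st 1 sh_mem_one k 1) (1 / 144 : ℝ) : GG →₀ ℝ)
          ⟨step k, step_mem k⟩ = 1 / 144 := by
        rw [h2]
        exact Finsupp.single_eq_same
      have h4 := single_nonneg (st 0 sh_mem_zero k 1) (⟨step k, step_mem k⟩ : GG) (1 / 72) (by norm_num)
      have h5 := single_nonneg (st (-1) sh_mem_neg k 1) (⟨step k, step_mem k⟩ : GG) (1 / 144)
        (by norm_num)
      rw [h3] at h1
      linarith
    have hgen : Subgroup.closure (Set.range fun k : KK => (⟨step k, step_mem k⟩ : GG)) = ⊤ := by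
      have h : (Set.range fun k : KK => (⟨step k, step_mem k⟩ : GG)) =
          ((↑) : GG → W KK) ⁻¹' (Set.range step) := by
        ext x
        simp only [Set.mem_range, Set.mem_preimage]
        constructor
        · rintro ⟨k, rfl⟩
          exact ⟨k, rfl⟩
        · rintro ⟨k, hk⟩
          exact ⟨k, Subtype.ext hk⟩
      rw [h]
      exact Subgroup.closure_closure_coe_preimage
    rw [eq_top_iff, ← hgen]
    exact Subgroup.closure_mono hsub
  one_pos := by
    have h1 := mu_ge 1 1 1
    have h2 : (1 : GG) = st 0 sh_mem_zero 1 1 := by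
      apply Subtype.ext
      show (1 : W KK) = lampAt 1 * sh 0 * lampAt 1
      rw [lampAt_one, sh_zero]
      simp
    rw [Finsupp.add_apply, Finsupp.add_apply] at h1
    have h3 : (Finsupp.single (st 0 sh_mem_zero 1 1) (1 / 72 : ℝ) : GG →₀ ℝ) 1 = 1 / 72 := by
      rw [← h2]
      exact Finsupp.single_eq_same
    have h4 := single_nonneg (st 1 sh_mem_one 1 1) (1 : GG) (1 / 144) (by norm_num)
    have h5 := single_nonneg (st (-1) sh_mem_neg 1 1) (1 : GG) (1 / 144) (by norm_num)
    rw [h3] at h1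
    linarith

theorem nu_nonneg (g : GG) : 0 ≤ nu g := by
  unfold nu
  rw [Finsupp.add_apply, Finsupp.finsetSum_apply]
  exact add_nonneg (single_nonneg _ _ _ (by norm_num))
    (Finset.sum_nonneg fun k _ => single_nonneg _ _ _ (by norm_num))

theorem nu_isStepLaw : IsStepLaw nu where
  nonneg := nu_nonneg
  mass := mass_of_EE _ nu_mass
  gen := by
    have hsub : (Set.range fun k : KK => (⟨step k, step_mem k⟩ : GG)) ⊆ (nu.support : Set GG) := by
      rintro _ ⟨k, rfl⟩
      rw [Finset.mem_coe, Finsupp.mem_support_iff]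
      unfold nu
      rw [Finsupp.add_apply, Finsupp.finsetSum_apply]
      have h4 := single_nonneg (1 : GG) (⟨step k, step_mem k⟩ : GG) (1 / 7) (by norm_num)
      have h5 := Finset.single_le_sum (f := fun k' : KK =>
        (Finsupp.single (⟨step k', step_mem k'⟩ : GG) (1 / 7 : ℝ)) (⟨step k, step_mem k⟩ : GG))
        (fun k' _ => single_nonneg _ _ _ (by norm_num)) (Finset.mem_univ k)
      simp only [Finsupp.single_eq_same] at h5
      linarith
    have hgen : Subgroup.closure (Set.range fun k : KK => (⟨step k, step_mem k⟩ : GG)) = ⊤ := by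
      have h : (Set.range fun k : KK => (⟨step k, step_mem k⟩ : GG)) =
          ((↑) : GG → W KK) ⁻¹' (Set.range step) := by
        ext x
        simp only [Set.mem_range, Set.mem_preimage]
        constructor
        · rintro ⟨k, rfl⟩
          exact ⟨k, rfl⟩
        · rintro ⟨k, hk⟩
          exact ⟨k, Subtype.ext hk⟩
      rw [h]
      exact Subgroup.closure_closure_coe_preimage
    rw [eq_top_iff, ← hgen]
    exact Subgroup.closure_mono hsub
  one_pos := by
    unfold nu
    rw [Finsupp.add_apply, Finsupp.finsetSum_apply, Finsupp.single_eq_same]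
    have := Finset.sum_nonneg fun (k : KK) (_ : k ∈ Finset.univ) =>
      single_nonneg (⟨step k, step_mem k⟩ : GG) (1 : GG) (1 / 7) (by norm_num)
    linarith

/-! ## The one-sided walk satisfies the word -/

theorem nu_pow_pos (n : ℕ) (F : GG → ℝ) (hF : ∀ g : GG, IsPos (g : W KK) → F g = 1) :
    EE (convPow nu n) F = 1 := by
  induction n generalizing F with
  | zero =>
    simp only [convPow]
    rw [EE_single, one_mul]
    exact hF 1 isPos_one
  | succ n ih =>
    rw [conv_succ', EE_nu]
    have h1 : EE (convPow nu n) (fun y => F (1 * y)) = 1 := ih _ fun g hg => by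
      rw [one_mul]
      exact hF g hg
    have h2 : ∀ k : KK, EE (convPow nu n) (fun y => F (⟨step k, step_mem k⟩ * y)) = 1 := fun k =>
      ih _ fun g hg => hF _ ((step_isPos k).mul hg)
    rw [h1]
    simp only [h2, mul_one, Finset.sum_const, Finset.card_univ, card_KK, nsmul_eq_mul]
    norm_num

theorem nu_prob (n : ℕ) : probAt nu word n = 1 := by
  classical
  rw [probAt_four]
  apply nu_pow_pos
  intro y hy
  apply nu_pow_pos
  intro t ht
  apply nu_pow_pos
  intro x hx
  apply nu_pow_pos
  intro z hz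
  rw [if_pos]
  apply Subtype.ext
  have h1 := lift_word_eq_one_of_isPos ![(x : W KK), y, z, t] (by
    intro i
    fin_cases i
    · exact hx
    · exact hy
    · exact hz
    · exact ht)
  rw [lift_word] at h1 ⊢
  exact h1

/-! ## The switch-walk-switch walk -/

theorem V_eq (F : W KK → ℝ) (x : W KK) : V F x = (∑ κ, F (x * lampAt κ)) / 6 := by
  show (∑ κ, F (upd x x.pos κ)) / (Fintype.card KK : ℝ) = _
  rw [card_KK]
  have h : ∀ κ, upd x x.pos κ = x * lampAt κ := by
    intro κ
    apply W.ext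
    · funext i
      rw [mul_lamp]
      show Function.update x.lamp x.pos (x.lamp x.pos * κ) i = _
      by_cases hi : i = x.pos
      · subst hi
        simp [lampAt]
      · rw [Function.update_of_ne hi]
        have : ¬ (i - x.pos = 0) := by omega
        simp [lampAt, this]
    · show x.pos = x.pos + 0
      ring
  simp_rw [h]
  norm_num

theorem mv_eq (x : W KK) (e : ℤ) : mv x e = x * sh e := by
  apply W.ext
  · funext i
    rw [mul_lamp]
    simp [mv, sh]
  · rfl

/-- One step of the walk is the operator `V ∘ M ∘ V`. -/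
theorem EE_mu_step (F : W KK → ℝ) (x : W KK) :
    EE mu (fun g => F (x * (g : W KK))) = V (M (V F)) x := by
  rw [EE_mu, V_eq]
  unfold M
  simp_rw [mv_eq, V_eq]
  rw [Finset.sum_div]
  refine Finset.sum_congr rfl fun k _ => ?_
  have h : ∀ (e : ℤ) (he : sh e ∈ GG) (k' : KK),
      x * (st e he k k' : W KK) = x * lampAt k * sh e * lampAt k' := by
    intro e he k'
    show x * (lampAt k * sh e * lampAt k') = _
    simp only [mul_assoc]
  have h0 : ∀ k' : KK, x * lampAt k * sh 0 * lampAt k' = x * lampAt k * lampAt k' := by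
    intro k'
    rw [sh_zero, mul_one]
  simp_rw [h, h0]
  rw [Finset.sum_add_distrib, Finset.sum_add_distrib, ← Finset.mul_sum, ← Finset.mul_sum,
    ← Finset.mul_sum]
  ring

theorem EE_pow (n : ℕ) (F : W KK → ℝ) (x : W KK) :
    EE (convPow mu (n + 1)) (fun g => F (x * (g : W KK))) = B (n + 1) F x := by
  induction n generalizing x with
  | zero =>
    rw [conv_succ']
    simp only [convPow]
    simp_rw [EE_single, one_mul, mul_one]
    exact EE_mu_step F x
  | succ n ih =>
    rw [conv_succ']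
    have h1 : ∀ y : GG, EE (convPow mu (n + 1)) (fun z => F (x * ((y * z : GG) : W KK))) =
        B (n + 1) F (x * (y : W KK)) := by
      intro y
      rw [← ih]
      congr 1
      ext z
      rw [Subgroup.coe_mul, mul_assoc]
    simp_rw [h1]
    rw [EE_mu_step, V_B]
    rfl

theorem EE_pow_one' (n : ℕ) (F : W KK → ℝ) :
    EE (convPow mu (n + 1)) (fun g => F (g : W KK)) = B (n + 1) F 1 := by
  rw [← EE_pow]
  simp only [one_mul]

theorem comm_count : (∑ u : KK, ∑ v : KK, ci u v) = (Fintype.card KK : ℝ) ^ 2 / 2 := by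
  have h : (∑ u : KK, ∑ v : KK, if u * v = v * u then (1 : ℕ) else 0) = 18 := by decide
  have h2 : (∑ u : KK, ∑ v : KK, ci u v) =
      ((∑ u : KK, ∑ v : KK, if u * v = v * u then (1 : ℕ) else 0 : ℕ) : ℝ) := by
    push_cast
    rfl
  rw [h2, h, card_KK]
  norm_num

/-- The commutation indicator of the two commutators. -/
noncomputable def ind (x y z t : W KK) : ℝ :=
  open Classical in
  if (x * y * x⁻¹ * y⁻¹) * (z * t * z⁻¹ * t⁻¹) = (z * t * z⁻¹ * t⁻¹) * (x * y * x⁻¹ * y⁻¹) then 1
  else 0

theorem ind_le_Phi (y t : W KK) (R : ℕ) (x z : W KK) : ind x y z t ≤ Phi y t R x z := by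
  classical
  unfold ind
  split_ifs with h
  · have h1 : Phi y t R x z = 1 := by
      unfold Phi
      apply Finset.prod_eq_one
      intro j _
      unfold ci
      rw [if_pos]
      have h2 := congrArg (fun w : W KK => w.lamp j) h
      simp only [mul_lamp (x * y * x⁻¹ * y⁻¹), mul_lamp (z * t * z⁻¹ * t⁻¹), comm_pos, sub_zero,
        ux_eq] at h2
      exact h2
    rw [h1]
  · exact Phi_nonneg _ _ _ _ _

theorem ind_le_one (x y z t : W KK) : ind x y z t ≤ 1 := by
  classical
  unfold ind
  split_ifs <;> norm_num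

theorem pow_nonneg' (n : ℕ) : ∀ g, 0 ≤ convPow mu n g := by
  induction n with
  | zero =>
    intro g
    exact single_nonneg _ _ _ zero_le_one
  | succ n ih =>
    intro g
    simp only [convPow, conv, Finsupp.sum]
    rw [Finsupp.finsetSum_apply]
    refine Finset.sum_nonneg fun a _ => ?_
    rw [Finsupp.finsetSum_apply]
    exact Finset.sum_nonneg fun b _ => single_nonneg _ _ _ (mul_nonneg (ih a) (mu_nonneg b))

/-- The error term. -/
noncomputable def err (R n : ℕ) : ℝ :=
  (1 / 2) ^ R + 2 * ∑ j ∈ Finset.range R, qn n j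

theorem err_nonneg (R n : ℕ) : 0 ≤ err R n := by
  unfold err
  have := Finset.sum_nonneg fun j (_ : j ∈ Finset.range R) => qn_nonneg n (j : ℤ)
  positivity

/-- The bad set of positions. -/
noncomputable def bad (R : ℕ) (y : W KK) : ℝ :=
  ∑ a ∈ Finset.Icc (-(R : ℤ)) R, if y.pos = a then 1 else 0

theorem bad_nonneg (R : ℕ) (y : W KK) : 0 ≤ bad R y :=
  Finset.sum_nonneg fun a _ => by split_ifs <;> norm_num

theorem bad_ge (R : ℕ) (y : W KK) (h : ¬ (R : ℤ) < |y.pos|) : 1 ≤ bad R y := by
  have hmem : y.pos ∈ Finset.Icc (-(R : ℤ)) R := by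
    rw [Finset.mem_Icc]
    push Not at h
    exact abs_le.1 h
  have := Finset.single_le_sum (f := fun a => if y.pos = a then (1 : ℝ) else 0)
    (fun a _ => by split_ifs <;> norm_num) hmem
  simpa [bad] using this

theorem inner_bound (R n : ℕ) (y t : GG) :
    EE (convPow mu (n + 1)) (fun x => EE (convPow mu (n + 1)) (fun z =>
      ind (x : W KK) y z t)) ≤ err R (n + 1) + bad R y + bad R t := by
  have hm := pow_nonneg' (n + 1)
  have hone := EE_pow_one mu mu_mass (n + 1)
  by_cases hy : (R : ℤ) < |(y : W KK).pos|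
  · by_cases ht : (R : ℤ) < |(t : W KK).pos|
    · have h1 := E2_le comm_count (y : W KK) t R hy ht (n + 1)
      have h2 : EE (convPow mu (n + 1)) (fun x => EE (convPow mu (n + 1)) (fun z =>
          ind (x : W KK) y z t)) ≤ E2 (n + 1) (Phi (y : W KK) t R) := by
        unfold E2
        rw [← EE_pow_one']
        apply EE_mono _ hm
        intro x _
        rw [← EE_pow_one' n (fun z => Phi (y : W KK) t R (x : W KK) z)]
        apply EE_mono _ hm
        intro z _
        exact ind_le_Phi _ _ _ _ _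
      have h3 := bad_nonneg R (y : W KK)
      have h4 := bad_nonneg R (t : W KK)
      unfold err
      linarith
    · have h1 : EE (convPow mu (n + 1)) (fun x => EE (convPow mu (n + 1)) (fun z =>
          ind (x : W KK) y z t)) ≤ EE (convPow mu (n + 1)) (fun _ => EE (convPow mu (n + 1))
            (fun _ => 1)) := by
        apply EE_mono _ hm
        intro x _
        apply EE_mono _ hm
        intro z _
        exact ind_le_one _ _ _ _
      rw [hone, hone] at h1
      have h3 := bad_nonneg R (y : W KK)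
      have h4 := bad_ge R (t : W KK) ht
      have h5 := err_nonneg R (n + 1)
      linarith
  · have h1 : EE (convPow mu (n + 1)) (fun x => EE (convPow mu (n + 1)) (fun z =>
        ind (x : W KK) y z t)) ≤ EE (convPow mu (n + 1)) (fun _ => EE (convPow mu (n + 1))
          (fun _ => 1)) := by
      apply EE_mono _ hm
      intro x _
      apply EE_mono _ hm
      intro z _
      exact ind_le_one _ _ _ _
    rw [hone, hone] at h1
    have h3 := bad_ge R (y : W KK) hy
    have h4 := bad_nonneg R (t : W KK)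
    have h5 := err_nonneg R (n + 1)
    linarith

theorem EE_bad (R n : ℕ) : EE (convPow mu (n + 1)) (fun y => bad R (y : W KK)) =
    ∑ a ∈ Finset.Icc (-(R : ℤ)) R, pn (n + 1) a := by
  unfold bad
  rw [EE_sum_fun]
  refine Finset.sum_congr rfl fun a _ => ?_
  have h := EE_pow_one' n (fun y : W KK => if y.pos = a then 1 else 0)
  rw [h, B_pos, one_pos', sub_zero]

theorem mu_prob_le (R n : ℕ) : probAt mu word (n + 1) ≤
    err R (n + 1) + 2 * ∑ a ∈ Finset.Icc (-(R : ℤ)) R, pn (n + 1) a := by
  classical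
  have hm := pow_nonneg' (n + 1)
  have hone := EE_pow_one mu mu_mass (n + 1)
  have hind : ∀ x y z t : GG, (if FreeGroup.lift ![x, y, z, t] word = 1 then (1 : ℝ) else 0) =
      ind (x : W KK) y ((z : W KK)⁻¹) ((t : W KK)⁻¹) := by
    intro x y z t
    unfold ind
    congr 1
    rw [lift_word, br_eq_one, Subtype.ext_iff]
    rfl
  have h1 : probAt mu word (n + 1) = EE (convPow mu (n + 1)) (fun y => EE (convPow mu (n + 1))
      (fun t => EE (convPow mu (n + 1)) (fun x => EE (convPow mu (n + 1)) (fun z =>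
        ind (x : W KK) y z t)))) := by
    rw [probAt_four]
    congr 1
    ext y
    rw [← EE_inv_pow mu mu_symm (n + 1) (fun t => EE (convPow mu (n + 1)) (fun x =>
      EE (convPow mu (n + 1)) (fun z => ind (x : W KK) y z t)))]
    congr 1
    ext t
    congr 1
    ext x
    rw [← EE_inv_pow mu mu_symm (n + 1) (fun z => ind (x : W KK) y z (t⁻¹ : GG))]
    congr 1
    ext z
    rw [hind]
    rfl
  rw [h1]
  have h2 : EE (convPow mu (n + 1)) (fun y => EE (convPow mu (n + 1))
      (fun t => EE (convPow mu (n + 1)) (fun x => EE (convPow mu (n + 1)) (fun z =>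
        ind (x : W KK) y z t)))) ≤ EE (convPow mu (n + 1)) (fun y => EE (convPow mu (n + 1))
      (fun t => err R (n + 1) + bad R (y : W KK) + bad R (t : W KK))) := by
    apply EE_mono _ hm
    intro y _
    apply EE_mono _ hm
    intro t _
    exact inner_bound R n y t
  refine h2.trans (le_of_eq ?_)
  have h3 : ∀ y : GG, EE (convPow mu (n + 1))
      (fun t => err R (n + 1) + bad R (y : W KK) + bad R (t : W KK)) =
      err R (n + 1) + bad R (y : W KK) + ∑ a ∈ Finset.Icc (-(R : ℤ)) R, pn (n + 1) a := by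
    intro y
    rw [EE_add_fun, EE_const _ hone, EE_bad]
  simp_rw [h3]
  rw [EE_add_fun, EE_const _ hone, EE_add_fun, EE_const _ hone, EE_bad]
  ring

theorem prob_nonneg (n : ℕ) : 0 ≤ probAt mu word n := by
  unfold probAt
  refine Finset.sum_nonneg fun g _ => ?_
  split_ifs
  · exact Finset.prod_nonneg fun i _ => pow_nonneg' n _
  · exact le_rfl

theorem mu_tendsto : Tendsto (probAt mu word) atTop (𝓝 0) := by
  rw [Metric.tendsto_atTop]
  intro ε hε
  -- choose R
  obtain ⟨R, hR⟩ := exists_pow_lt_of_lt_one (show (0 : ℝ) < ε / 4 by positivity)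
    (show (1 / 2 : ℝ) < 1 by norm_num)
  -- small hitting probabilities
  have hq : ∃ N : ℕ, ∀ n ≥ N, ∀ j ∈ Finset.range R, qn n (j : ℤ) ≤ ε / (8 * (R + 1)) := by
    have h : ∀ j : ℕ, ∃ N : ℕ, ∀ n ≥ N, qn n (j : ℤ) ≤ ε / (8 * (R + 1)) := fun j =>
      qn_small j _ (by positivity)
    choose N hN using h
    refine ⟨(Finset.range R).sup N, fun n hn j hj => hN j n ((Finset.le_sup hj).trans hn)⟩
  obtain ⟨N1, hN1⟩ := hq
  obtain ⟨N2, hN2⟩ := pn_small (ε / (8 * (2 * R + 1))) (by positivity)
  refine ⟨N1 + N2 + 1, fun n hn => ?_⟩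
  obtain ⟨k, rfl⟩ : ∃ k, n = k + 1 := ⟨n - 1, by omega⟩
  rw [Real.dist_eq, sub_zero, abs_of_nonneg (prob_nonneg _)]
  refine lt_of_le_of_lt (mu_prob_le R k) ?_
  have h1 : ∑ j ∈ Finset.range R, qn (k + 1) (j : ℤ) ≤ ε / 8 := by
    calc ∑ j ∈ Finset.range R, qn (k + 1) (j : ℤ)
        ≤ ∑ _j ∈ Finset.range R, ε / (8 * (R + 1)) :=
          Finset.sum_le_sum fun j hj => hN1 (k + 1) (by omega) j hj
      _ = R * (ε / (8 * (R + 1))) := by
          rw [Finset.sum_const, Finset.card_range, nsmul_eq_mul]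
      _ ≤ (R + 1) * (ε / (8 * (R + 1))) := by
          have : 0 ≤ ε / (8 * ((R : ℝ) + 1)) := by positivity
          nlinarith
      _ = ε / 8 := by field_simp
  have h2 : ∑ a ∈ Finset.Icc (-(R : ℤ)) R, pn (k + 1) a ≤ ε / 8 := by
    calc ∑ a ∈ Finset.Icc (-(R : ℤ)) R, pn (k + 1) a
        ≤ ∑ _a ∈ Finset.Icc (-(R : ℤ)) R, ε / (8 * (2 * R + 1)) :=
          Finset.sum_le_sum fun a _ => hN2 (k + 1) (by omega) a
      _ = (2 * R + 1) * (ε / (8 * (2 * R + 1))) := by
          rw [Finset.sum_const, Int.card_Icc, nsmul_eq_mul]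
          congr 1
          have : ((R : ℤ) + 1 - -(R : ℤ)).toNat = 2 * R + 1 := by omega
          rw [this]
          push_cast
          ring
      _ = ε / 8 := by field_simp
  unfold err
  linarith

/-- **MP_b50549_al, Q1: yes.** There are a finitely generated group `G`, a nontrivial word `w`
(here in four letters) and two random walk measures on `G` with step distributions `μ`, `ν` such
that `Pr_μ(w = 1 on G) = 0` and `Pr_ν(w = 1 on G) > 0`. -/
theorem result : ∃ (G : Type) (_ : Group G) (w : FreeGroup (Fin 4)) (μ ν : G →₀ ℝ),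
    Group.FG G ∧ w ≠ 1 ∧ IsStepLaw μ ∧ IsStepLaw ν ∧ Pr μ w = 0 ∧ 0 < Pr ν w := by
  refine ⟨GG, inferInstance, word, mu, nu, ?_, ?_, mu_isStepLaw, nu_isStepLaw,
    mu_tendsto.limsup_eq, ?_⟩
  · rw [Group.fg_iff]
    exact ⟨(mu.support : Set GG), mu_isStepLaw.gen, mu.support.finite_toSet⟩
  · intro h
    have h2 := word_nontrivial (Equiv.swap (0 : Fin 3) 1) (Equiv.swap (1 : Fin 3) 2) (by decide)
    rw [h] at h2
    exact h2 (map_one _)
  · have h : probAt nu word = fun _ => 1 := funext nu_prob
    have h2 : Tendsto (probAt nu word) atTop (𝓝 1) := by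
      rw [h]
      exact tendsto_const_nhds
    rw [Pr, h2.limsup_eq]
    norm_num

end Pool.Agent.Results.MP_b50549_al.DependsOnGenerators
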